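import Pool.Agent.H684R2.PCG.Hard

/-!
# Generalized PCG recognition is NP-hard

An instance is a finite graph `G` (a vertex list and an edge list) with a list `S` of non-edges.
The question is whether some `PCG(T, dmin, dmax)` whose leaves are identified with the vertices
of `G` contains every edge of `G` and no pair of `S`.
-/

namespace Pool.Agent.Results.MP_9390ab_lc.GenPCGHard

open Pool.Agent.NPC Pool.Agent.H684R2.PCG

/-- Generalized PCG recognition is NP-hard under polynomial-time many-one reductions. -/
theorem result : NPHardP (fun I : Inst => I.GenPCGRecognition) := hard

end Pool.Agent.Results.MP_9390ab_lc.GenPCGHard
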